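import Pool.Agent.W345.VO.Stm

namespace Pool.Agent.W345.VO

universe u

theorem voa (hVA : S_VA) (h01 : S_OM01) (hV : S_VIR) (hW : S_WT) : S_VOA := by
  obtain ⟨A, hA⟩ := hVA
  obtain ⟨h0, h1⟩ := h01 A hA
  obtain ⟨w1, w2, w3⟩ := hW
  refine ⟨{ A with
      omega := om
      c := -5
      virasoro := fun m n v => hV A hA m n v
      deriv := fun a n => by
        rw [h0]
        exact hA.2.2.2 a n
      internal := by
        rw [h1]
        exact w1
      finite := by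
        rw [h1]
        exact w2
      bounded := ⟨0, by
        rw [h1]
        exact w3⟩ }, hA, rfl⟩

theorem rat (hR : S_REP.{u}) (hS : S_STB.{u}) (hC : S_CR.{u}) : S_RAT.{u} := by
  intro A hA hom M _ _ X
  obtain ⟨ρ, r1, r2, r3, r4⟩ := hR A hA hom M X
  obtain ⟨ι, N, hN, hi, hs⟩ := hC M ρ
  have key : ∀ N : Submodule ℂ M, (ρ.St N ∧ ρ.Gr N) ↔ X.IsSub N := by
    intro N
    constructor
    · rintro ⟨hs, hg⟩
      refine ⟨fun a n w hw => hS A hA M X N (fun n w hw => ?_) a n w hw, ?_⟩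
      · obtain ⟨-, e, f⟩ := hs n w hw
        rw [r2] at e
        rw [r3] at f
        exact ⟨e, f⟩
      · rw [← r4]
        exact hg
    · intro h
      refine ⟨fun n w hw => ⟨?_, ?_, ?_⟩, ?_⟩
      · rw [r1]
        exact h.stable _ _ _ hw
      · rw [r2]
        exact h.stable _ _ _ hw
      · rw [r3]
        exact h.stable _ _ _ hw
      · unfold Rep.Gr
        rw [r4]
        exact h.graded
  refine ⟨ι, N, fun i => ?_, hi, hs⟩
  obtain ⟨a, b, c, d⟩ := hN i
  refine ⟨(key _).1 ⟨a, b⟩, c, fun N' hN' hle => ?_⟩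
  obtain ⟨a', b'⟩ := (key _).2 hN'
  exact d N' a' b' hle

/-- the disproof, from the parts -/
theorem final (hVOA : S_VOA) (hAut : S_AUT) (hSim : S_SIM) (hRat : S_RAT.{u})
    (hWT : S_WT) (hWT1 : S_WT01) (h1 : S_OM01) :
    (∃ (V : Type) (_ : AddCommGroup V) (_ : Module ℂ V) (A : VOA V),
      A.IsSimple ∧ IsRational.{u} A ∧ A.wt 1 ≠ ⊥ ∧ (∀ n : ℤ, n < 0 → A.wt n = ⊥) ∧
      (∀ g ∈ A.Aut, g = 1)) ∧
    ¬ ∀ (V : Type) [AddCommGroup V] [Module ℂ V] (A : VOA V), IsRational.{u} A →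
      (Finite A.Aut ↔ A.wt 1 = ⊥) := by
  obtain ⟨A, hA, hom⟩ := hVOA
  have hW : A.Y A.omega 1 = WW := by
    rw [hom]
    exact (h1 _ hA).2
  have hal : al ∈ A.wt 1 := by
    unfold VOA.wt
    rw [LinearMap.mem_ker, hW, LinearMap.sub_apply, hWT1.2.2.2.2.1]
    simp
  have hne : al ≠ 0 := by
    intro h
    have h2 := DFunLike.congr_fun h 0
    unfold al at h2
    rw [Finsupp.single_eq_same] at h2
    exact MvPolynomial.X_ne_zero (R := ℂ) (0 : ℕ) h2
  have hbot : A.wt 1 ≠ ⊥ := by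
    intro h
    rw [h] at hal
    exact hne ((Submodule.mem_bot ℂ).1 hal)
  have hneg : ∀ n : ℤ, n < 0 → A.wt n = ⊥ := by
    intro n hn
    unfold VOA.wt
    rw [hW]
    exact hWT.2.2 n hn
  have haut := hAut A hA hom
  have hrat := hRat A hA hom
  refine ⟨⟨VV, inferInstance, inferInstance, A, hSim A hA, hrat, hbot, hneg, haut⟩, ?_⟩
  intro hall
  apply hbot
  rw [← hall VV A hrat]
  have : Subsingleton A.Aut := ⟨fun g h => by
    apply Subtype.ext
    rw [haut g.1 g.2, haut h.1 h.2]⟩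
  exact Finite.of_subsingleton

end Pool.Agent.W345.VO
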