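import Mathlib

/-!
Vertex operator algebras over the complex numbers in component form, admissible modules,
rationality and automorphisms.
-/

namespace Pool.Agent.W345.VO

universe u

/-- The binomial coefficient `r (r-1) ... (r-i+1) / i!` of an integer `r`, as a complex number. -/
noncomputable def bc (r : ℤ) (i : ℕ) : ℂ := ((Ring.choose r i : ℤ) : ℂ)

/-- The Borcherds (Jacobi) identity in components, for operators `Y a n` (the mode `a_n`) of a
space `V` on itself and operators `YM a n` on a space `M`. All the sums below have only finitely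
many non-zero terms as soon as the truncation conditions hold. -/
def BorcherdsId {V : Type} {M : Type u} [AddCommGroup V] [Module ℂ V] [AddCommGroup M] [Module ℂ M]
    (Y : V →ₗ[ℂ] (ℤ → Module.End ℂ V)) (YM : V →ₗ[ℂ] (ℤ → Module.End ℂ M)) : Prop :=
  ∀ (a b : V) (w : M) (l m n : ℤ),
    ∑ᶠ i : ℕ, bc l i • YM (Y a (n + i) b) (l + m - i) w =
    ∑ᶠ i : ℕ, ((-1 : ℂ) ^ i * bc n i) •
      (YM a (l + n - i) (YM b (m + i) w) - (-1 : ℂ) ^ n • YM b (m + n - i) (YM a (l + i) w))

/-- Vertex algebras: `Y a n` is the mode `a_n`, i.e. `Y(a,z) = sum_n a_n z^(-n-1)`. -/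
structure VertexAlgebra (V : Type) [AddCommGroup V] [Module ℂ V] where
  Y : V →ₗ[ℂ] (ℤ → Module.End ℂ V)
  one : V
  trunc : ∀ a v : V, ∃ N : ℤ, ∀ n, N ≤ n → Y a n v = 0
  one_left : ∀ (n : ℤ) (v : V), Y one n v = if n = -1 then v else 0
  one_right : ∀ a : V, Y a (-1) one = a
  one_right' : ∀ (a : V) (n : ℤ), 0 ≤ n → Y a n one = 0
  borcherds : BorcherdsId Y Y

/-- Vertex operator algebras: a vertex algebra with a conformal vector `omega`, whose modes
`L(n) = omega_(n+1)` satisfy the Virasoro relations with central charge `c`, `L(-1)` is the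
translation operator, `V` is the direct sum of the eigenspaces `V_n` of `L(0)` with integer
eigenvalues `n`, all `V_n` are finite dimensional and `V_n = 0` for `n` sufficiently small. -/
structure VOA (V : Type) [AddCommGroup V] [Module ℂ V] extends VertexAlgebra V where
  omega : V
  c : ℂ
  virasoro : ∀ (m n : ℤ) (v : V),
    Y omega (m + 1) (Y omega (n + 1) v) - Y omega (n + 1) (Y omega (m + 1) v) =
      ((m : ℂ) - n) • Y omega (m + n + 1) v +
      (if m + n = 0 then ((m : ℂ) ^ 3 - m) / 12 * c else 0) • v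
  deriv : ∀ (a : V) (n : ℤ), Y (Y omega 0 a) n = (-(n : ℂ)) • Y a (n - 1)
  internal : DirectSum.IsInternal
    (fun n : ℤ => LinearMap.ker (Y omega 1 - (n : ℂ) • (LinearMap.id : V →ₗ[ℂ] V)))
  finite : ∀ n : ℤ, FiniteDimensional ℂ
    (LinearMap.ker (Y omega 1 - (n : ℂ) • (LinearMap.id : V →ₗ[ℂ] V)))
  bounded : ∃ N : ℤ, ∀ n < N,
    LinearMap.ker (Y omega 1 - (n : ℂ) • (LinearMap.id : V →ₗ[ℂ] V)) = ⊥

namespace VOA

variable {V : Type} [AddCommGroup V] [Module ℂ V]

/-- `V_n`, the eigenspace of `L(0)` for the eigenvalue `n`. -/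
def wt (A : VOA V) (n : ℤ) : Submodule ℂ V :=
  LinearMap.ker (A.Y A.omega 1 - (n : ℂ) • (LinearMap.id : V →ₗ[ℂ] V))

/-- The automorphisms of a vertex operator algebra: linear bijections `g` with
`g Y(a,z) g⁻¹ = Y(g a,z)` and `g omega = omega`. -/
def Aut (A : VOA V) : Subgroup (V ≃ₗ[ℂ] V) where
  carrier := {g | (∀ (a : V) (n : ℤ) (v : V), g (A.Y a n v) = A.Y (g a) n (g v)) ∧
    g A.omega = A.omega}
  mul_mem' := by
    rintro g h ⟨hg, hg'⟩ ⟨hh, hh'⟩
    refine ⟨fun a n v => ?_, ?_⟩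
    · simp only [LinearEquiv.mul_apply]
      rw [hh, hg]
    · simp only [LinearEquiv.mul_apply]
      rw [hh', hg']
  one_mem' := ⟨fun a n v => rfl, rfl⟩
  inv_mem' := by
    rintro g ⟨hg, hg'⟩
    refine ⟨fun a n v => ?_, ?_⟩
    · apply g.injective
      have h1 : ∀ x, g (g⁻¹ x) = x := fun x => g.apply_symm_apply x
      rw [hg, h1, h1, h1]
    · apply g.injective
      have h1 : ∀ x, g (g⁻¹ x) = x := fun x => g.apply_symm_apply x
      rw [h1, hg']

/-- Simple: no ideals except `0` and `V`. -/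
def IsSimple (A : VOA V) : Prop :=
  A.one ≠ 0 ∧ ∀ N : Submodule ℂ V, (∀ (a : V) (n : ℤ) (v : V), v ∈ N → A.Y a n v ∈ N) →
    N = ⊥ ∨ N = ⊤

end VOA

/-- Admissible modules: a space `M`, the direct sum of subspaces `M(d)`, `d = 0, 1, 2, ...`
(`deg d`), with an action `Y a n` of the modes `a_n` satisfying truncation, the vacuum property
and the Borcherds identity, such that `a_n M(d)` is contained in `M(d + k - n - 1)` for `a` of
weight `k` (and is zero if `d + k - n - 1 < 0`). -/
structure AdmModule {V : Type} [AddCommGroup V] [Module ℂ V] (A : VOA V)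
    (M : Type u) [AddCommGroup M] [Module ℂ M] where
  Y : V →ₗ[ℂ] (ℤ → Module.End ℂ M)
  trunc : ∀ (a : V) (w : M), ∃ N : ℤ, ∀ n, N ≤ n → Y a n w = 0
  one_left : ∀ (n : ℤ) (w : M), Y A.one n w = if n = -1 then w else 0
  borcherds : BorcherdsId A.Y Y
  deg : ℕ → Submodule ℂ M
  internal : DirectSum.IsInternal deg
  deg_map : ∀ (k : ℤ) (a : V), a ∈ A.wt k → ∀ (n : ℤ) (d : ℕ) (w : M), w ∈ deg d →
    (∀ e : ℕ, (e : ℤ) = d + k - n - 1 → Y a n w ∈ deg e) ∧
    ((d : ℤ) + k - n - 1 < 0 → Y a n w = 0)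

namespace AdmModule

variable {V : Type} [AddCommGroup V] [Module ℂ V] {A : VOA V}
  {M : Type u} [AddCommGroup M] [Module ℂ M]

/-- Admissible (i.e. graded) submodules. -/
structure IsSub (X : AdmModule A M) (N : Submodule ℂ M) : Prop where
  stable : ∀ (a : V) (n : ℤ) (w : M), w ∈ N → X.Y a n w ∈ N
  graded : N = ⨆ d : ℕ, N ⊓ X.deg d

/-- Irreducible admissible submodules. -/
def IsIrr (X : AdmModule A M) (N : Submodule ℂ M) : Prop :=
  X.IsSub N ∧ N ≠ ⊥ ∧ ∀ N' : Submodule ℂ M, X.IsSub N' → N' ≤ N → N' = ⊥ ∨ N' = N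

end AdmModule

/-- Rationality: every admissible module is a direct sum of irreducible admissible modules. -/
def IsRational {V : Type} [AddCommGroup V] [Module ℂ V] (A : VOA V) : Prop :=
  ∀ (M : Type u) [AddCommGroup M] [Module ℂ M] (X : AdmModule A M),
    ∃ (ι : Type u) (N : ι → Submodule ℂ M),
      (∀ i, X.IsIrr (N i)) ∧ iSupIndep N ∧ ⨆ i, N i = ⊤

end Pool.Agent.W345.VO
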