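import Pool.Agent.W345.VO.Model

/-!
Statements of the parts of project VO.
-/

namespace Pool.Agent.W345.VO

open MvPolynomial

universe u

/-! ### General theory of fields -/

/-- The space of fields: families `a n` of operators with `a n v = 0` for large `n`. -/
def FL (V : Type) [AddCommGroup V] [Module ℂ V] : Submodule ℂ (ℤ → Module.End ℂ V) where
  carrier := {a | ∀ v : V, ∃ N : ℤ, ∀ n, N ≤ n → a n v = 0}
  add_mem' := by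
    intro a b ha hb v
    obtain ⟨N, hN⟩ := ha v
    obtain ⟨N', hN'⟩ := hb v
    refine ⟨max N N', fun n hn => ?_⟩
    rw [Pi.add_apply, LinearMap.add_apply, hN n (le_trans (le_max_left _ _) hn),
      hN' n (le_trans (le_max_right _ _) hn), add_zero]
  zero_mem' := fun v => ⟨0, fun n _ => rfl⟩
  smul_mem' := by
    intro c a ha v
    obtain ⟨N, hN⟩ := ha v
    refine ⟨N, fun n hn => ?_⟩
    rw [Pi.smul_apply, LinearMap.smul_apply, hN n hn, smul_zero]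

section fields

variable {V : Type} [AddCommGroup V] [Module ℂ V]

/-- The `i`-th term of the right hand side of the Borcherds identity. -/
noncomputable def trm (a b : ℤ → Module.End ℂ V) (r p q : ℤ) (v : V) (i : ℕ) : V :=
  ((-1 : ℂ) ^ i * bc r i) •
    (a (p + r - i) (b (q + i) v) - (-1 : ℂ) ^ r • b (q + r - i) (a (p + i) v))

/-- The right hand side of the Borcherds identity. -/
noncomputable def RR (a b : ℤ → Module.End ℂ V) (r p q : ℤ) (v : V) : V :=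
  ∑ᶠ i : ℕ, trm a b r p q v i

/-- Locality. -/
def Loc (a b : ℤ → Module.End ℂ V) : Prop :=
  ∃ N : ℕ, ∀ (p q : ℤ) (v : V), RR a b (N : ℤ) p q v = 0

/-- `c` is the `n`-th product of `a` and `b`. -/
def IsPrd (n : ℤ) (a b c : ℤ → Module.End ℂ V) : Prop :=
  ∀ (m : ℤ) (v : V), c m v = RR a b n 0 m v

/-- Translation covariance. -/
def Cov (T : Module.End ℂ V) (a : ℤ → Module.End ℂ V) : Prop :=
  ∀ (n : ℤ) (v : V), T (a n v) - a n (T v) = (-(n : ℂ)) • a (n - 1) v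

/-- Creation property with respect to the vector `o`. -/
def Cre (o : V) (a : ℤ → Module.End ℂ V) : Prop := ∀ n : ℤ, 0 ≤ n → a n o = 0

/-- The identity field. -/
def idf : ℤ → Module.End ℂ V := fun n => if n = -1 then LinearMap.id else 0

end fields

/-- finitely many non-zero terms -/
def S_FIN : Prop := ∀ (V : Type) [AddCommGroup V] [Module ℂ V] (a b : ℤ → Module.End ℂ V),
  a ∈ FL V → b ∈ FL V → ∀ (r p q : ℤ) (v : V), (Function.support (trm a b r p q v)).Finite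

/-- Pascal -/
def S_PAS : Prop := ∀ (V : Type) [AddCommGroup V] [Module ℂ V] (a b : ℤ → Module.End ℂ V),
  a ∈ FL V → b ∈ FL V → ∀ (r p q : ℤ) (v : V),
    RR a b r (p + 1) q v - RR a b r p (q + 1) v = RR a b (r + 1) p q v

/-- interpolation -/
def S_INT : Prop := ∀ (V : Type) [AddCommGroup V] [Module ℂ V] (a b : ℤ → Module.End ℂ V),
  a ∈ FL V → b ∈ FL V → Loc a b → ∀ (r p q : ℤ) (v : V),
    RR a b r p q v = ∑ᶠ j : ℕ, bc p j • RR a b (r + j) 0 (p + q - j) v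

/-- products exist -/
def S_PRD : Prop := ∀ (V : Type) [AddCommGroup V] [Module ℂ V] (a b : ℤ → Module.End ℂ V),
  a ∈ FL V → b ∈ FL V → ∀ n : ℤ, ∃ c ∈ FL V, IsPrd n a b c

/-- locality is symmetric -/
def S_SYM : Prop := ∀ (V : Type) [AddCommGroup V] [Module ℂ V] (a b : ℤ → Module.End ℂ V),
  a ∈ FL V → b ∈ FL V → Loc a b → Loc b a

/-- locality is linear; the identity field is a field, local to every field -/
def S_LAD : Prop := ∀ (V : Type) [AddCommGroup V] [Module ℂ V],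
  (∀ a b c : ℤ → Module.End ℂ V, a ∈ FL V → b ∈ FL V → c ∈ FL V →
    Loc a c → Loc b c → Loc (a + b) c) ∧
  (∀ (k : ℂ) (a c : ℤ → Module.End ℂ V), a ∈ FL V → c ∈ FL V → Loc a c → Loc (k • a) c) ∧
  (idf : ℤ → Module.End ℂ V) ∈ FL V ∧
  (∀ c : ℤ → Module.End ℂ V, c ∈ FL V → Loc idf c)

/-- Dong's lemma -/
def S_DONG : Prop := ∀ (V : Type) [AddCommGroup V] [Module ℂ V] (a b c d : ℤ → Module.End ℂ V),
  a ∈ FL V → b ∈ FL V → c ∈ FL V → d ∈ FL V → Loc a b → Loc a c → Loc b c →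
  ∀ n : ℤ, IsPrd n a b d → Loc d c

/-- products of translation covariant fields -/
def S_COV : Prop := ∀ (V : Type) [AddCommGroup V] [Module ℂ V] (T : Module.End ℂ V)
  (a b c : ℤ → Module.End ℂ V), a ∈ FL V → b ∈ FL V → Cov T a → Cov T b →
  ∀ n : ℤ, IsPrd n a b c → Cov T c

/-- products and the vacuum -/
def S_CRE : Prop := ∀ (V : Type) [AddCommGroup V] [Module ℂ V] (o : V)
  (a b c : ℤ → Module.End ℂ V), a ∈ FL V → b ∈ FL V → Cre o a → Cre o b →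
  ∀ n : ℤ, IsPrd n a b c → Cre o c ∧ c (-1) o = a n (b (-1) o)

/-- Goddard uniqueness -/
def S_GOD : Prop := ∀ (V : Type) [AddCommGroup V] [Module ℂ V] (T : Module.End ℂ V) (o : V)
  (a b : ℤ → Module.End ℂ V), a ∈ FL V → b ∈ FL V → Loc a b → Cre o a → Cre o b → Cov T a →
  T o = 0 → a (-1) o = 0 → ∀ n : ℤ, a n (b (-1) o) = 0

/-- the reconstruction theorem -/
def S_REC : Prop := ∀ (V : Type) [AddCommGroup V] [Module ℂ V] (T : Module.End ℂ V) (o : V)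
  (G : Set (ℤ → Module.End ℂ V)), T o = 0 →
  (∀ a ∈ G, a ∈ FL V ∧ Cov T a ∧ Cre o a) →
  (∀ a ∈ G, ∀ b ∈ G, Loc a b) →
  (∀ S : Submodule ℂ V, o ∈ S → (∀ a ∈ G, ∀ (n : ℤ) (v : V), v ∈ S → a n v ∈ S) → S = ⊤) →
  ∃ A : VertexAlgebra V, A.one = o ∧ (∀ a ∈ G, A.Y (a (-1) o) = a) ∧
    ∀ (x : V) (n : ℤ), A.Y (T x) n = (-(n : ℂ)) • A.Y x (n - 1)

/-! ### The concrete operators -/

def S_HH : Prop := ∀ (m n : ℤ) (v : VV),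
  hOp m (hOp n v) - hOp n (hOp m v) = (if m + n = 0 then 2 * (m : ℂ) else 0) • v

def S_HE : Prop := ∀ ε : ℤ, ε = 1 ∨ ε = -1 → ∀ (m n : ℤ) (v : VV),
  hOp m (EE ε n v) - EE ε n (hOp m v) = (2 * (ε : ℂ)) • EE ε (m + n) v

/-- values on `ee k` -/
def S_BAS : Prop :=
  (∀ ε n k : ℤ, EE ε n (ee k) = Finsupp.single (k + ε) (sz (ε : ℂ) (-n - 1 - 2 * ε * k))) ∧
  (∀ k : ℤ, TT (ee k) = Finsupp.single k ((k : ℂ) • X 0)) ∧
  (∀ k : ℤ, hOp 0 (ee k) = (2 * (k : ℂ)) • ee k) ∧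
  (∀ k m : ℤ, 0 < m → hOp m (ee k) = 0)

/-- Fock space facts -/
def S_FOCK : Prop :=
  (∀ v : VV, (∀ m : ℤ, 0 < m → hOp m v = 0) → v ∈ Submodule.span ℂ (Set.range ee)) ∧
  (∀ S : Submodule ℂ VV, (∀ k, ee k ∈ S) →
    (∀ (l : ℕ) (v : VV), v ∈ S → hOp (-(l : ℤ) - 1) v ∈ S) → S = ⊤)

/-- weighted homogeneity of degree `d` (zero if `d < 0`) -/
def hom (d : ℤ) (p : PP) : Prop :=
  (0 ≤ d ∧ MvPolynomial.IsWeightedHomogeneous (fun i : ℕ => i + 1) p d.toNat) ∨ p = 0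

/-- homogeneous vectors of charge `k` and degree `d` -/
def HomV (k d : ℤ) (v : VV) : Prop := ∃ p : PP, v = Finsupp.single k p ∧ hom d p

def S_HOM : Prop :=
  (∀ (k : ℤ), HomV k 0 (ee k)) ∧
  (∀ (k d m : ℤ) (v : VV), HomV k d v → HomV k (d - m) (hOp m v)) ∧
  (∀ (ε k d n : ℤ) (v : VV), HomV k d v → HomV (k + ε) (d - n - 1 - 2 * ε * k) (EE ε n v)) ∧
  (∀ (k d : ℤ) (v : VV), HomV k d v → HomV k (d + 1) (TT v))

/-- the uniqueness principle -/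
def S_IND : Prop := ∀ (c : ℤ) (g : ℤ → ℤ) (x y : ℂ) (D : ℤ → ℤ → Module.End ℂ VV),
  (∀ (l m n : ℤ) (v : VV),
    hOp l (D m n v) - D m n (hOp l v) = x • D (m + l) n v + y • D m (n + l) v) →
  (∀ m n k : ℤ, HomV (k + c) (g k - m - n) (D m n (ee k))) →
  (∀ m n k : ℤ, m + n = g k → D m n (ee k) = 0) → ∀ (m n : ℤ) (v : VV), D m n v = 0

/-- the constants -/
def S_CON : Prop :=
  (∀ ε : ℂ, ε = 1 ∨ ε = -1 → ∀ j : ℤ, phi ε (-j) (tau ε (sz ε j)) =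
    C (if j = 0 ∨ j = 2 then 1 else if j = 1 then -2 else 0)) ∧
  (∀ ε : ℂ, ε = 1 ∨ ε = -1 → ∀ j : ℤ, phi ε (-j) (tau ε (sz (-ε) j)) =
    C (if 0 ≤ j then (j : ℂ) + 1 else 0))

def S_EEC : Prop := ∀ ε : ℤ, ε = 1 ∨ ε = -1 → ∀ (m n : ℤ) (v : VV),
  EE ε m (EE ε n v) = EE ε n (EE ε m v)

def S_EF : Prop := ∀ (m n : ℤ) (v : VV),
  EE 1 m (EE (-1) n v) - EE (-1) n (EE 1 m v) =
    hOp (m + n) v + (if m + n = 0 then (m : ℂ) else 0) • v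

def S_TH : Prop := ∀ (n : ℤ) (v : VV),
  TT (hOp n v) - hOp n (TT v) = (-(n : ℂ)) • hOp (n - 1) v

def S_TE : Prop := ∀ ε : ℤ, ε = 1 ∨ ε = -1 → ∀ (n : ℤ) (v : VV),
  TT (EE ε n v) - EE ε n (TT v) = (-(n : ℂ)) • EE ε (n - 1) v

def S_FLM : Prop := (∀ ε : ℤ, EE ε ∈ FL VV) ∧ hOp ∈ FL VV

def S_GEN : Prop := ∀ S : Submodule ℂ VV, ee 0 ∈ S →
  (∀ (n : ℤ) (v : VV), v ∈ S → EE 1 n v ∈ S) →
  (∀ (n : ℤ) (v : VV), v ∈ S → EE (-1) n v ∈ S) → S = ⊤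

def S_LOCM : Prop := ∀ ε ε' : ℤ, (ε = 1 ∨ ε = -1) → (ε' = 1 ∨ ε' = -1) → Loc (EE ε) (EE ε')

/-- The vertex algebras we use. -/
def Good (A : VertexAlgebra VV) : Prop :=
  A.one = ee 0 ∧ A.Y (ee 1) = EE 1 ∧ A.Y (ee (-1)) = EE (-1) ∧
  ∀ (x : VV) (n : ℤ), A.Y (TT x) n = (-(n : ℂ)) • A.Y x (n - 1)

def S_VA : Prop := ∃ A : VertexAlgebra VV, Good A

/-! ### The conformal vector -/

def S_AL : Prop := ∀ A : VertexAlgebra VV, Good A → A.Y al = hOp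

def S_OM : Prop := ∀ A : VertexAlgebra VV, Good A → ∀ (m : ℤ) (v : VV),
  A.Y om m v =
    (1 / 4 : ℂ) • (∑ᶠ i : ℕ, (hOp (-1 - i) (hOp (m + i) v) + hOp (m - 1 - i) (hOp i v))) -
    ((m : ℂ) / 2) • hOp (m - 1) v + ((m : ℂ) * (m - 1)) • EE 1 (m - 2) v

def S_OM01 : Prop := ∀ A : VertexAlgebra VV, Good A → A.Y om 0 = TT ∧ A.Y om 1 = WW

def S_OMOM : Prop := ∀ A : VertexAlgebra VV, Good A →
  A.Y om 2 om = 0 ∧ A.Y om 3 om = (-5 / 2 : ℂ) • ee 0 ∧ ∀ n : ℤ, 4 ≤ n → A.Y om n om = 0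

def S_VIR : Prop := ∀ A : VertexAlgebra VV, Good A → ∀ (m n : ℤ) (v : VV),
  A.Y om (m + 1) (A.Y om (n + 1) v) - A.Y om (n + 1) (A.Y om (m + 1) v) =
    ((m : ℂ) - n) • A.Y om (m + n + 1) v +
    (if m + n = 0 then ((m : ℂ) ^ 3 - m) / 12 * (-5) else 0) • v

def S_WT : Prop :=
  DirectSum.IsInternal
    (fun n : ℤ => LinearMap.ker (WW - (n : ℂ) • (LinearMap.id : VV →ₗ[ℂ] VV))) ∧
  (∀ n : ℤ, FiniteDimensional ℂ
    (LinearMap.ker (WW - (n : ℂ) • (LinearMap.id : VV →ₗ[ℂ] VV)))) ∧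
  (∀ n : ℤ, n < 0 → LinearMap.ker (WW - (n : ℂ) • (LinearMap.id : VV →ₗ[ℂ] VV)) = ⊥)

def S_WT01 : Prop :=
  (∀ v : VV, WW v = 0 → ∃ x y : ℂ, v = x • ee 0 + y • ee 1) ∧
  (∀ v : VV, WW v = v → ∃ x y : ℂ, v = x • al + y • Finsupp.single 1 (X 0)) ∧
  (∀ v : VV, WW v = (2 : ℂ) • v → hOp 0 v = (-2 : ℂ) • v → ∃ x : ℂ, v = x • ee (-1)) ∧
  (∀ k : ℤ, WW (ee k) = ((k : ℂ) ^ 2 - k) • ee k) ∧ WW al = al ∧ WW om = (2 : ℂ) • om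

def S_VOA : Prop := ∃ A : VOA VV, Good A.toVertexAlgebra ∧ A.omega = om

def S_AUT : Prop := ∀ A : VOA VV, Good A.toVertexAlgebra → A.omega = om →
  ∀ g ∈ A.Aut, g = 1

def S_SIM : Prop := ∀ A : VOA VV, Good A.toVertexAlgebra → A.IsSimple

/-! ### Modules -/

/-- Graded representations of the relations satisfied by the modes of `al`, `ee 1`, `ee (-1)`. -/
structure Rep (M : Type u) [AddCommGroup M] [Module ℂ M] where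
  h : ℤ → Module.End ℂ M
  E : ℤ → Module.End ℂ M
  F : ℤ → Module.End ℂ M
  deg : ℕ → Submodule ℂ M
  internal : DirectSum.IsInternal deg
  h_deg : ∀ (n : ℤ) (d : ℕ) (w : M), w ∈ deg d →
    (∀ e : ℕ, (e : ℤ) = d - n → h n w ∈ deg e) ∧ ((d : ℤ) - n < 0 → h n w = 0)
  E_deg : ∀ (n : ℤ) (d : ℕ) (w : M), w ∈ deg d →
    (∀ e : ℕ, (e : ℤ) = d - n - 1 → E n w ∈ deg e) ∧ ((d : ℤ) - n - 1 < 0 → E n w = 0)
  F_deg : ∀ (n : ℤ) (d : ℕ) (w : M), w ∈ deg d →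
    (∀ e : ℕ, (e : ℤ) = d + 1 - n → F n w ∈ deg e) ∧ ((d : ℤ) + 1 - n < 0 → F n w = 0)
  hh : ∀ (m n : ℤ) (w : M),
    h m (h n w) - h n (h m w) = (if m + n = 0 then 2 * (m : ℂ) else 0) • w
  hE : ∀ (m n : ℤ) (w : M), h m (E n w) - E n (h m w) = (2 : ℂ) • E (m + n) w
  hF : ∀ (m n : ℤ) (w : M), h m (F n w) - F n (h m w) = (-2 : ℂ) • F (m + n) w
  EF : ∀ (m n : ℤ) (w : M), E m (F n w) - F n (E m w) =
    h (m + n) w + (if m + n = 0 then (m : ℂ) else 0) • w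
  TE : ∀ (m : ℤ) (w : M), ∑ᶠ i : ℕ, (h (-1 - i) (E (m + i) w) + E (m - 1 - i) (h i w)) =
    (-(m : ℂ)) • E (m - 1) w
  TF : ∀ (m : ℤ) (w : M), ∑ᶠ i : ℕ, (h (-1 - i) (F (m + i) w) + F (m - 1 - i) (h i w)) =
    (m : ℂ) • F (m - 1) w

namespace Rep

variable {M : Type u} [AddCommGroup M] [Module ℂ M]

/-- vacuum vectors for the Heisenberg operators -/
def Om (ρ : Rep M) (w : M) : Prop := ∀ n : ℤ, 0 < n → ρ.h n w = 0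

/-- closed under all operators -/
def St (ρ : Rep M) (N : Submodule ℂ M) : Prop :=
  ∀ (n : ℤ) (w : M), w ∈ N → ρ.h n w ∈ N ∧ ρ.E n w ∈ N ∧ ρ.F n w ∈ N

/-- graded -/
def Gr (ρ : Rep M) (N : Submodule ℂ M) : Prop := N = ⨆ d : ℕ, N ⊓ ρ.deg d

def Irr (ρ : Rep M) (N : Submodule ℂ M) : Prop :=
  ρ.St N ∧ ρ.Gr N ∧ N ≠ ⊥ ∧
    ∀ N' : Submodule ℂ M, ρ.St N' → ρ.Gr N' → N' ≤ N → N' = ⊥ ∨ N' = N

/-- A chain of vacuum vectors. -/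
structure Chain (ρ : Rep M) (k : ℤ) (y : ℤ → M) : Prop where
  om : ∀ j, ρ.Om (y j)
  eig : ∀ j, ρ.h 0 (y j) = ((k + 2 * j : ℤ) : ℂ) • y j
  up : ∀ j, ρ.E (-(k + 2 * j) - 1) (y j) = y (j + 1)
  down : ∀ j, ρ.F (k + 2 * j - 1) (y j) = y (j - 1)
  E0 : ∀ j n, -(k + 2 * j) - 1 < n → ρ.E n (y j) = 0
  F0 : ∀ j n, k + 2 * j - 1 < n → ρ.F n (y j) = 0
  ne : ∀ j, y j ≠ 0
  hom : ∀ j, ∃ d, y j ∈ ρ.deg d

/-- The span of the creation operators applied to a set. -/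
def PS (ρ : Rep M) (W : Set M) : Submodule ℂ M :=
  sInf {S | W ⊆ S ∧ ∀ (l : ℕ) (w : M), w ∈ S → ρ.h (-(l : ℤ) - 1) w ∈ S}

end Rep

def S_REP : Prop := ∀ A : VOA VV, Good A.toVertexAlgebra → A.omega = om →
  ∀ (M : Type u) [AddCommGroup M] [Module ℂ M] (X : AdmModule A M),
  ∃ ρ : Rep M, ρ.h = X.Y al ∧ ρ.E = X.Y (ee 1) ∧ ρ.F = X.Y (ee (-1)) ∧ ρ.deg = X.deg

def S_STB : Prop := ∀ A : VOA VV, Good A.toVertexAlgebra →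
  ∀ (M : Type u) [AddCommGroup M] [Module ℂ M] (X : AdmModule A M) (N : Submodule ℂ M),
  (∀ (n : ℤ) (w : M), w ∈ N → X.Y (ee 1) n w ∈ N ∧ X.Y (ee (-1)) n w ∈ N) →
  ∀ (a : VV) (n : ℤ) (w : M), w ∈ N → X.Y a n w ∈ N

/-- `h 0` is diagonalisable on the vacuum vectors, with integer eigenvalues -/
def S_DIA : Prop := ∀ (M : Type u) [AddCommGroup M] [Module ℂ M] (ρ : Rep M) (d : ℕ) (w : M),
  w ∈ ρ.deg d → ρ.Om w →
  w ∈ Submodule.span ℂ {y : M | y ∈ ρ.deg d ∧ ρ.Om y ∧ ∃ k : ℤ, ρ.h 0 y = (k : ℂ) • y}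

/-- `E` and `F` on vacuum vectors which are eigenvectors of `h 0` -/
def S_ZW : Prop := ∀ (M : Type u) [AddCommGroup M] [Module ℂ M] (ρ : Rep M) (k : ℤ) (y : M),
  ρ.Om y → ρ.h 0 y = (k : ℂ) • y →
  (∀ n : ℤ, -k - 1 < n → ρ.E n y = 0) ∧ (∀ n : ℤ, k - 1 < n → ρ.F n y = 0) ∧
  ρ.Om (ρ.E (-k - 1) y) ∧ ρ.h 0 (ρ.E (-k - 1) y) = ((k + 2 : ℤ) : ℂ) • ρ.E (-k - 1) y ∧
  ρ.Om (ρ.F (k - 1) y) ∧ ρ.h 0 (ρ.F (k - 1) y) = ((k - 2 : ℤ) : ℂ) • ρ.F (k - 1) y ∧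
  ρ.F (k + 1) (ρ.E (-k - 1) y) = y ∧ ρ.E (-k + 1) (ρ.F (k - 1) y) = y

/-- the operator `K = 1/2 sum_(n > 0) h_(-n) h_n` -/
def S_KK : Prop := ∀ (M : Type u) [AddCommGroup M] [Module ℂ M] (ρ : Rep M),
  ∃ K : Module.End ℂ M,
    (∀ w, ρ.Om w → K w = 0) ∧
    (∀ (l : ℕ) (w : M), K (ρ.h (-(l : ℤ) - 1) w) =
      ρ.h (-(l : ℤ) - 1) (K w) + ((l : ℂ) + 1) • ρ.h (-(l : ℤ) - 1) w) ∧
    (∀ (l : ℕ) (w : M), K (ρ.h ((l : ℤ) + 1) w) =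
      ρ.h ((l : ℤ) + 1) (K w) - ((l : ℂ) + 1) • ρ.h ((l : ℤ) + 1) w) ∧
    (∀ (S : Submodule ℂ M) (w : M), (∀ (l : ℕ) (x : M), x ∈ S → ρ.h (-(l : ℤ) - 1) x ∈ S) →
      (∀ l : ℕ, ρ.h ((l : ℤ) + 1) w ∈ S) → K w ∈ S)

/-- decomposition of `PS W` into eigenspaces of `K` -/
def S_PSK : Prop := ∀ (M : Type u) [AddCommGroup M] [Module ℂ M] (ρ : Rep M)
  (K : Module.End ℂ M), (∀ w, ρ.Om w → K w = 0) →
  (∀ (l : ℕ) (w : M), K (ρ.h (-(l : ℤ) - 1) w) =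
      ρ.h (-(l : ℤ) - 1) (K w) + ((l : ℂ) + 1) • ρ.h (-(l : ℤ) - 1) w) →
  ∀ W : Set M, (∀ w ∈ W, ρ.Om w) →
    (∀ x ∈ ρ.PS W, ∃ f : ℕ →₀ M, x = f.sum (fun _ z => z) ∧
      (∀ n, f n ∈ ρ.PS W ∧ K (f n) = (n : ℂ) • f n) ∧ f 0 ∈ Submodule.span ℂ W) ∧
    (∀ x ∈ ρ.PS W, K x = 0 → x ∈ Submodule.span ℂ W) ∧
    (∀ x ∈ ρ.PS W, ∀ n : ℕ, K x = (-((n : ℂ) + 1)) • x → x = 0) ∧
    (∀ (l : ℕ) (x : M), x ∈ ρ.PS W → ρ.h ((l : ℤ) + 1) x ∈ ρ.PS W)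

/-- the vacuum vectors generate -/
def S_OMG : Prop := ∀ (M : Type u) [AddCommGroup M] [Module ℂ M] (ρ : Rep M),
  ρ.PS {w | ρ.Om w} = ⊤

/-- chains exist -/
def S_CHN : Prop := ∀ (M : Type u) [AddCommGroup M] [Module ℂ M] (ρ : Rep M) (k : ℤ) (d : ℕ)
  (x : M), x ∈ ρ.deg d → ρ.Om x → ρ.h 0 x = (k : ℂ) • x → x ≠ 0 →
  ∃ y : ℤ → M, ρ.Chain k y ∧ y 0 = x

/-- the span of a chain is stable -/
def S_CST : Prop := ∀ (M : Type u) [AddCommGroup M] [Module ℂ M] (ρ : Rep M) (k : ℤ)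
  (y : ℤ → M), ρ.Chain k y → ρ.St (ρ.PS (Set.range y)) ∧ ρ.Gr (ρ.PS (Set.range y))

/-- the span of a chain is irreducible -/
def S_CIR : Prop := ∀ (M : Type u) [AddCommGroup M] [Module ℂ M] (ρ : Rep M) (k : ℤ)
  (y : ℤ → M), ρ.Chain k y → ρ.Irr (ρ.PS (Set.range y))

/-- lattice argument -/
def S_LAT : Prop := ∀ (M : Type u) [AddCommGroup M] [Module ℂ M] (O : Set (Module.End ℂ M)),
  (∀ w : M, w ∈ ⨆ N ∈ {N : Submodule ℂ M | (∀ f ∈ O, ∀ x ∈ N, f x ∈ N) ∧ N ≠ ⊥ ∧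
      ∀ N' : Submodule ℂ M, (∀ f ∈ O, ∀ x ∈ N', f x ∈ N') → N' ≤ N → N' = ⊥ ∨ N' = N}, N) →
  ∃ (ι : Type u) (N : ι → Submodule ℂ M),
    (∀ i, (∀ f ∈ O, ∀ x ∈ N i, f x ∈ N i) ∧ N i ≠ ⊥ ∧
      ∀ N' : Submodule ℂ M, (∀ f ∈ O, ∀ x ∈ N', f x ∈ N') → N' ≤ N i → N' = ⊥ ∨ N' = N i) ∧
    iSupIndep N ∧ ⨆ i, N i = ⊤

/-- complete reducibility -/
def S_CR : Prop := ∀ (M : Type u) [AddCommGroup M] [Module ℂ M] (ρ : Rep M),
  ∃ (ι : Type u) (N : ι → Submodule ℂ M), (∀ i, ρ.Irr (N i)) ∧ iSupIndep N ∧ ⨆ i, N i = ⊤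

/-- rationality -/
def S_RAT : Prop := ∀ A : VOA VV, Good A.toVertexAlgebra → A.omega = om → IsRational.{u} A

end Pool.Agent.W345.VO
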