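import Pool.Agent.W345.VO.Asm
import Pool.Agent.W688.VO.Fin
import Pool.Agent.W933.VO.Int
import Pool.Agent.W688.VO.Prd
import Pool.Agent.W395.VO.Sym
import Pool.Agent.W85.VO.Cov
import Pool.Agent.W179.VO.CRE
import Pool.Agent.W155.VO.Recon
import Pool.Agent.W451.VO.HE
import Pool.Agent.W681.VO.HOM
import Pool.Agent.W119.VO.Ind
import Pool.Agent.W605.VO.Cons
import Pool.Agent.W978.VO.Eec
import Pool.Agent.W191.VO.EF
import Pool.Agent.W392.VO.Te
import Pool.Agent.W608.VO.Gen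
import Pool.Agent.W589.VO.AlOm
import Pool.Agent.W15.VO.OM01
import Pool.Agent.W554.VO.Omom
import Pool.Agent.W766.VO.Vir
import Pool.Agent.W696.VO.WT
import Pool.Agent.W685.VO.WT01
import Pool.Agent.W370.VO.AUT
import Pool.Agent.W202.VO.Sim
import Pool.Agent.W885.VO.Rep
import Pool.Agent.W639.VO.Stb
import Pool.Agent.W881.VO.Dia
import Pool.Agent.W368.VO.ZW
import Pool.Agent.W683.VO.Kk
import Pool.Agent.W999.VO.Psk
import Pool.Agent.W212.VO.Omg
import Pool.Agent.W414.VO.Chn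
import Pool.Agent.W214.VO.CST
import Pool.Agent.W18.VO.Cir
import Pool.Agent.W591.VO.Lat
import Pool.Agent.W919.VO.CR
import Pool.Agent.W369.VO.Dong
import Pool.Agent.W174.VO.HH
import Pool.Agent.W377.VO.Fock

/-! Assembly of project VO. -/

namespace Pool.Agent.W345.VO

open Pool.Agent

universe u

theorem main :
    (∃ (V : Type) (_ : AddCommGroup V) (_ : Module ℂ V) (A : VOA V),
      A.IsSimple ∧ IsRational.{u} A ∧ A.wt 1 ≠ ⊥ ∧ (∀ n : ℤ, n < 0 → A.wt n = ⊥) ∧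
      (∀ g ∈ A.Aut, g = 1)) ∧
    ¬ ∀ (V : Type) [AddCommGroup V] [Module ℂ V] (A : VOA V), IsRational.{u} A →
      (Finite A.Aut ↔ A.wt 1 = ⊥) := by
  have hFIN : S_FIN := W688.VO.fin
  have hPAS : S_PAS := W688.VO.pas
  have hDong : S_DONG := W369.VO.dong hFIN hPAS W395.VO.sym
  have hHH : S_HH := W174.VO.hh
  have hBAS : S_BAS := W174.VO.bas
  have hTH : S_TH := W174.VO.th
  have hFock : S_FOCK := W377.VO.fock
  have hINT : S_INT := W933.VO.int hPAS
  have hPRD : S_PRD := W688.VO.prd hFIN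
  have hLAD : S_LAD := W688.VO.lad hFIN
  have hREC : S_REC := W155.VO.Recon.recon hFIN hPAS hINT hPRD W395.VO.sym hLAD hDong
    (W85.VO.cov hFIN) W179.VO.cre W179.VO.god
  have hIND : S_IND := W119.VO.ind hFock hBAS
  have hEEC : S_EEC := W978.VO.eec W451.VO.he hBAS W681.VO.homs hIND W605.VO.con
  have hEF : S_EF := W191.VO.ef hHH W451.VO.he hBAS W681.VO.homs hIND W605.VO.con
  have hTE : S_TE := W392.VO.Te.te hHH W451.VO.he hBAS hTH W681.VO.homs hIND
  have hGEN : S_GEN := W608.VO.gen hBAS hEF hFock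
  have hLOC : S_LOCM := W608.VO.locm hEEC hEF
  have hVA : S_VA := W608.VO.va hREC hBAS hTE W681.VO.flm hGEN hLOC
  have hAL : S_AL := W589.VO.al_eq hBAS hEF
  have hOM : S_OM := W589.VO.om_eq hAL
  have h01 : S_OM01 := W15.VO.om01 hHH W451.VO.he hBAS hFock hTH hAL hOM
  have hOO : S_OMOM := W554.VO.omom hHH W451.VO.he hBAS hOM
  have hW1 : S_WT01 := W685.VO.wt01
  have hVIR : S_VIR := W766.VO.Vir.vir h01 hOO hW1
  have hWT : S_WT := W696.VO.WT.wt
  have hVOA : S_VOA := voa hVA h01 hVIR hWT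
  have hAUT : S_AUT := W370.VO.aut W451.VO.he hBAS hTH hTE hGEN hAL h01 hW1
  have hSIM : S_SIM := W202.VO.Sim.sim hBAS hFock hAL
  have hREP : S_REP.{u} := W885.VO.rep hHH W451.VO.he hBAS hEF hAL h01 hW1
  have hSTB : S_STB.{u} := W639.VO.stb hGEN
  have hOMG : S_OMG.{u} := W212.VO.omg W683.VO.kk W999.VO.psk
  have hCHN : S_CHN.{u} := W414.VO.chn W368.VO.zw
  have hCIR : S_CIR.{u} := W18.VO.cir W683.VO.kk W999.VO.psk W214.VO.cst
  have hCR : S_CR.{u} := W919.VO.cr hOMG W881.VO.Dia.dia hCHN hCIR W591.VO.lat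
  exact final hVOA hAUT hSIM (rat hREP hSTB hCR) hWT hW1 h01

end Pool.Agent.W345.VO
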