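import Pool.Agent.W345.VO.Defs

/-!
The concrete space `VV = (functions from the integers to polynomials, finite support)`, the
operators `hOp m`, `EE 1 n`, `EE (-1) n` (affine sl_2 at level one), the translation operator `TT`
and the weight operator `WW`.
-/

namespace Pool.Agent.W345.VO

open MvPolynomial

abbrev PP := MvPolynomial ℕ ℂ
abbrev VV := ℤ →₀ MvPolynomial ℕ ℂ

/-- The operator `single k p ↦ single (k + c) (f k p)`. -/
noncomputable def sh (c : ℤ) (f : ℤ → (PP →ₗ[ℂ] PP)) : Module.End ℂ VV :=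
  Finsupp.lsum ℂ (fun k => (Finsupp.lsingle (k + c)).comp (f k))

theorem sh_single (c : ℤ) (f : ℤ → (PP →ₗ[ℂ] PP)) (k : ℤ) (p : PP) :
    sh c f (Finsupp.single k p) = Finsupp.single (k + c) (f k p) := by
  unfold sh
  rw [Finsupp.lsum_single]
  rfl

/-- two operators on `VV` agree if they agree on all `single k p`. -/
theorem ext_single {M : Type*} [AddCommGroup M] [Module ℂ M] {f g : VV →ₗ[ℂ] M}
    (h : ∀ k p, f (Finsupp.single k p) = g (Finsupp.single k p)) : f = g := by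
  apply Finsupp.lhom_ext
  intro k p
  exact h k p

/-- The Heisenberg operators: `hOp (-(l+1))` is multiplication by `X l`, `hOp 0` is `2k` on charge
`k`, `hOp (l+1)` is `2 (l+1) d/dX_l`. -/
noncomputable def hOp : ℤ → Module.End ℂ VV
  | Int.negSucc l => sh 0 (fun _ => LinearMap.mulLeft ℂ (X l))
  | Int.ofNat 0 => sh 0 (fun k => (2 * (k : ℂ)) • LinearMap.id)
  | Int.ofNat (l + 1) => sh 0 (fun _ => (2 * ((l : ℂ) + 1)) • (pderiv l).toLinearMap)

theorem hOp_neg (l : ℕ) (k : ℤ) (p : PP) :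
    hOp (-(l : ℤ) - 1) (Finsupp.single k p) = Finsupp.single k (X l * p) := by
  have h : (-(l : ℤ) - 1) = Int.negSucc l := by omega
  rw [h]
  show sh 0 _ _ = _
  rw [sh_single, add_zero]
  rfl

theorem hOp_zero (k : ℤ) (p : PP) :
    hOp 0 (Finsupp.single k p) = Finsupp.single k ((2 * (k : ℂ)) • p) := by
  show sh 0 _ _ = _
  rw [sh_single, add_zero]
  rfl

theorem hOp_pos (l : ℕ) (k : ℤ) (p : PP) :
    hOp ((l : ℤ) + 1) (Finsupp.single k p) =
      Finsupp.single k ((2 * ((l : ℂ) + 1)) • pderiv l p) := by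
  have h : ((l : ℤ) + 1) = Int.ofNat (l + 1) := by simp
  rw [h]
  show sh 0 _ _ = _
  rw [sh_single, add_zero]
  rfl

/-- The coefficients `ss ε j` of `exp (ε * sum_(l ≥ 1) X_(l-1) z^l / l)`. -/
noncomputable def ss (ε : ℂ) : ℕ → PP
  | 0 => 1
  | (j + 1) => C (ε / ((j : ℂ) + 1)) * ∑ i : Fin (j + 1), X (i : ℕ) * ss ε (j - i)
decreasing_by omega

theorem ss_zero (ε : ℂ) : ss ε 0 = 1 := by rw [ss]

theorem ss_succ (ε : ℂ) (j : ℕ) :
    ss ε (j + 1) = C (ε / ((j : ℂ) + 1)) * ∑ i ∈ Finset.range (j + 1), X i * ss ε (j - i) := by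
  rw [ss, Finset.sum_range]

/-- `ss`, extended by zero to negative indices. -/
noncomputable def sz (ε : ℂ) (j : ℤ) : PP := if 0 ≤ j then ss ε j.toNat else 0

/-- The algebra homomorphism `X_i ↦ X_i - 2 ε t^(i+1)`. -/
noncomputable def tau (ε : ℂ) : PP →ₐ[ℂ] Polynomial PP :=
  MvPolynomial.aeval (fun i : ℕ =>
    Polynomial.C (X i) - Polynomial.C (C (2 * ε)) * Polynomial.X ^ (i + 1))

/-- The linear map `c t^d ↦ c * sz ε (d + m)`. -/
noncomputable def phi (ε : ℂ) (m : ℤ) : Polynomial PP →ₗ[ℂ] PP :=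
  Polynomial.lsum (fun d => LinearMap.mulRight ℂ (sz ε ((d : ℤ) + m)))

/-- The modes of the vertex operators of `e^alpha` (`ε = 1`) and `e^(-alpha)` (`ε = -1`). -/
noncomputable def EE (ε : ℤ) (n : ℤ) : Module.End ℂ VV :=
  sh ε (fun k => (phi (ε : ℂ) (-n - 1 - 2 * ε * k)).comp (tau (ε : ℂ)).toLinearMap)

theorem EE_single (ε n k : ℤ) (p : PP) :
    EE ε n (Finsupp.single k p) =
      Finsupp.single (k + ε) (phi (ε : ℂ) (-n - 1 - 2 * ε * k) (tau (ε : ℂ) p)) := by
  unfold EE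
  rw [sh_single]
  rfl

theorem phi_monomial (ε : ℂ) (m : ℤ) (d : ℕ) (c : PP) :
    phi ε m (Polynomial.monomial d c) = c * sz ε ((d : ℤ) + m) := by
  unfold phi
  rw [Polynomial.lsum_apply, Polynomial.sum_monomial_index]
  · rfl
  · simp

/-- The derivation `X_i ↦ (i+1) X_(i+1)`. -/
noncomputable def DD : Derivation ℂ PP PP :=
  MvPolynomial.mkDerivation ℂ (fun i : ℕ => C ((i : ℂ) + 1) * X (i + 1))

/-- The translation operator. -/
noncomputable def TT : Module.End ℂ VV :=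
  sh 0 (fun k => DD.toLinearMap + (k : ℂ) • LinearMap.mulLeft ℂ (X 0))

theorem TT_single (k : ℤ) (p : PP) :
    TT (Finsupp.single k p) = Finsupp.single k (DD p + (k : ℂ) • (X 0 * p)) := by
  unfold TT
  rw [sh_single, add_zero]
  rfl

/-- The derivation `X_i ↦ (i+1) X_i`. -/
noncomputable def NN : Derivation ℂ PP PP :=
  MvPolynomial.mkDerivation ℂ (fun i : ℕ => C ((i : ℂ) + 1) * X i)

/-- The weight operator. -/
noncomputable def WW : Module.End ℂ VV :=
  sh 0 (fun k => NN.toLinearMap + ((k : ℂ) ^ 2 - k) • LinearMap.id)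

theorem WW_single (k : ℤ) (p : PP) :
    WW (Finsupp.single k p) = Finsupp.single k (NN p + ((k : ℂ) ^ 2 - k) • p) := by
  unfold WW
  rw [sh_single, add_zero]
  rfl

/-- The vectors `e^(k alpha)`. -/
noncomputable def ee (k : ℤ) : VV := Finsupp.single k 1

/-- The vector `alpha = h_(-1) e^0`. -/
noncomputable def al : VV := Finsupp.single 0 (X 0)

/-- The conformal vector `1/4 h_(-1)^2 e^0 + 1/2 h_(-2) e^0 + T^2 e^alpha`. -/
noncomputable def om : VV :=
  Finsupp.single 0 (C (1 / 4) * X 0 ^ 2 + C (1 / 2) * X 1) + Finsupp.single 1 (X 1 + X 0 ^ 2)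

end Pool.Agent.W345.VO
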